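import Pool.Agent.Helper66.LV.Defs
import Pool.Agent.Helper76.TP.GoodT

/-!
# MP_a499ba_nt, large values of the imaginary twists: the size of the gain
-/

set_option autoImplicit false

namespace Pool.Agent.Helper66.LV

open MeasureTheory Filter Pool.Agent.IT

theorem zy_le (y : ℕ) : Zy y ≤ 2 ^ y := by
  have h0 : (primorial y).divisors.card ≤ 2 ^ y := by
    rw [Nat.card_divisors (primorial_ne_zero y)]
    have h1 : ∀ x ∈ (primorial y).primeFactors, (primorial y).factorization x + 1 ≤ 2 := by
      intro x _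
      have := (squarefree_primorial y).natFactorization_le_one x
      omega
    refine (Finset.prod_le_prod' h1).trans ?_
    rw [Finset.prod_const]
    refine Nat.pow_le_pow_right (by norm_num) ?_
    have h2 : (primorial y).primeFactors ⊆ Finset.Icc 1 y := by
      intro p hp
      have hp' := Nat.prime_of_mem_primeFactors hp
      exact Finset.mem_Icc.mpr ⟨hp'.one_lt.le, hp'.dvd_primorial_iff.mp (Nat.dvd_of_mem_primeFactors hp)⟩
    simpa using Finset.card_le_card h2
  unfold Zy
  exact_mod_cast h0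

theorem py_pow (y : ℕ) (hy : 1 ≤ y) : (1 + 1 / (2 * Real.sqrt y)) ^ Nat.primeCounting y ≤ Py y := by
  unfold Py
  rw [primeFactors_primorial, ← Nat.primesLE_card_eq_primeCounting, ← Finset.prod_const]
  refine Finset.prod_le_prod (fun p _ => by positivity) (fun p hp => ?_)
  have hp1 : 1 < p := Nat.one_lt_of_mem_primesLE hp
  have hp2 : p ≤ y := Nat.le_of_mem_primesLE hp
  have hp0 : (0 : ℝ) < p := by exact_mod_cast (by omega : 0 < p)
  have h1 : (p : ℝ) ^ (-(1 / 2) : ℝ) = 1 / Real.sqrt p := by
    rw [Real.rpow_neg hp0.le, ← Real.sqrt_eq_rpow, one_div]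
  rw [h1]
  have h2 : Real.sqrt p ≤ Real.sqrt y := Real.sqrt_le_sqrt (by exact_mod_cast hp2)
  have h3 : 0 < Real.sqrt p := Real.sqrt_pos.2 hp0
  have h4 : 1 / (2 * Real.sqrt y) ≤ 1 / (2 * Real.sqrt p) :=
    one_div_le_one_div_of_le (by positivity) (by linarith)
  have h5 : 1 / (2 * Real.sqrt p) = 1 / Real.sqrt p / 2 := by
    field_simp
  linarith

theorem py_ge : ∀ᶠ y : ℕ in atTop, Real.exp (Real.sqrt y / (8 * Real.log y)) ≤ Py y := by
  filter_upwards [Pool.Agent.Helper76.TP.cheb, eventually_ge_atTop 2] with y h1 h2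
  refine le_trans ?_ (py_pow y (by omega))
  have hy : (2 : ℝ) ≤ y := by exact_mod_cast h2
  have hL : 0 < Real.log y := Real.log_pos (by linarith)
  obtain ⟨w, hw⟩ : ∃ w, w = Real.sqrt y := ⟨_, rfl⟩
  have hw1 : 1 ≤ w := by
    rw [hw]
    exact Real.one_le_sqrt.2 (by linarith)
  have hwy : w * w = y := by rw [hw]; exact Real.mul_self_sqrt (by linarith)
  rw [← hw]
  have h3 : 1 / (3 * w) ≤ Real.log (1 + 1 / (2 * w)) := by
    have h4 : 0 < 1 + 1 / (2 * w) := by positivity
    refine le_trans ?_ (Real.one_sub_inv_le_log_of_pos h4)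
    have h5 : 1 - (1 + 1 / (2 * w))⁻¹ = 1 / (2 * w + 1) := by
      field_simp
      ring
    rw [h5]
    exact one_div_le_one_div_of_le (by linarith) (by linarith)
  rw [← Real.exp_log (show 0 < (1 + 1 / (2 * w)) ^ Nat.primeCounting y by positivity),
    Real.exp_le_exp, Real.log_pow]
  calc w / (8 * Real.log y) ≤ y / (2 * Real.log y) * (1 / (3 * w)) := by
        have e : (y : ℝ) / (2 * Real.log y) * (1 / (3 * w)) = w / (6 * Real.log y) := by
          have e1 : (y : ℝ) / (2 * Real.log y) * (1 / (3 * w)) =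
              w * w / (2 * Real.log y) * (1 / (3 * w)) := by rw [hwy]
          rw [e1]
          field_simp
          norm_num
        rw [e]
        exact div_le_div_of_nonneg_left (by linarith) (by linarith) (by linarith)
    _ ≤ (Nat.primeCounting y : ℝ) * Real.log (1 + 1 / (2 * w)) :=
        mul_le_mul h1 h3 (by positivity) (by positivity)

end Pool.Agent.Helper66.LV
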